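import Pool.Agent.Lib.MP_28303a_al.NT.H78.Box
import Pool.Agent.Lib.MP_28303a_al.TW.H89.Rci

/-! # Coherence of the rings acting on the values at boxes -/

set_option autoImplicit false

namespace Pool.Agent.NegK.NT.H78

open CategoryTheory Limits Opposite

universe u

variable {k : Type u} [Ring k] {Γ : Type u} [Group Γ] {B : Type u} [MulAction Γ B] {P : Pre Γ B}

theorem rc_end (h : Fin0 P) (x : Bx P)
    (hs : TW.RegCoh (MonoidAlgebra k (MulAction.stabilizer Γ x.pt))) : RC (Rg k x) :=
  TW.H89.regCoh_of_equiv _ _ (MonoidAlgebra.mapDomainRingEquiv k (endEquiv h x).symm) hs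

end Pool.Agent.NegK.NT.H78
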