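import Pool.Agent.Lib.MP_28303a_al.NT.H78.Ev
import Pool.Agent.Lib.MP_28303a_al.NT.H78.Rcb
import Pool.Agent.Lib.MP_28303a_al.NT.A.Iface

/-! # REG -/

set_option autoImplicit false

namespace Pool.Agent.NegK.NT.H78

open CategoryTheory Limits Opposite

universe u

theorem fin0 {Γ : Type u} [Group Γ] (T : Sys Γ)
    (h : ∀ (i : Fin T.m) (x : T.B i), {y | y ≤ x}.Finite) : Fin0 (T.P Finset.univ) where
  antisymm x y hxy hyx := funext fun i =>
    le_antisymm (hxy i (Finset.mem_univ i)) (hyx i (Finset.mem_univ i))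
  finite y := by
    refine (Set.Finite.pi' fun i => h i (y i)).subset ?_
    intro x hx i
    exact hx i (Finset.mem_univ i)

/-- REG. -/
theorem reg (hG : GoodStatement.{u}) : RegStatement.{u} := by
  intro Γ _ T hT k _ hk
  have hF := fin0 T hT.fin
  have hB := ei hF
  have hR : ∀ U : Bx (T.P Finset.univ), RC (Rg k U) := fun U =>
    rc_end hF U (hT.stab U.pt k hk)
  obtain ⟨h1, h2, h3, h4, h5, h6⟩ := hG k Γ T.Box (T.P Finset.univ)
  have hΦ : Good (fun M : Fn k (Bx (T.P Finset.univ)) => Rsl M) :=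
    { left := fun S hS => h1 S hS
      mid := fun S hS => h2 S hS
      right := fun S hS => h3 S hS
      iso := fun M N e => h5 M N e
      zero := fun M h => h4 M h
      rep := fun n U M hM => by
        obtain ⟨ρ⟩ := hM
        obtain ⟨A, hA, ⟨e⟩⟩ := exists_iso_ev (k := k) n U
        exact h6 M A hA ⟨⟨ρ.i ≫ e.hom, e.inv ≫ ρ.r, by simp⟩⟩ }
  refine ⟨fun M => FPV M, ?_⟩
  exact
    { iso := fun M N e h => e.elim fun e => FPV.iso e h
      ker := fun M N f hM hN => FPV.ker hR f hM hN
      coker := fun M N f hM hN => FPV.coker hR f hM hN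
      fin := fun A hA => by
        obtain ⟨n, loc, ⟨e⟩⟩ := exists_iso_ps A
        exact FPV.iso e (FPV.ps loc hB)
      res := fun M hM => Good.all hB hR hΦ M hM }

end Pool.Agent.NegK.NT.H78
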