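import Pool.Agent.Lib.MP_28303a_al.NT.H78.Quo
import Pool.Agent.Lib.MP_28303a_al.NT.A.Cat

/-! # The category of an invariant partial order with finite down-sets -/

set_option autoImplicit false

namespace Pool.Agent.NegK.NT.H78

open CategoryTheory Limits Opposite

universe u

section

variable {Γ : Type u} [Group Γ] {B : Type u} [MulAction Γ B] {P : Pre Γ B}

/-- The conditions on the order. -/
structure Fin0 (P : Pre Γ B) : Prop where
  antisymm : ∀ x y : B, P.le x y → P.le y x → x = y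
  finite : ∀ y : B, {x | P.le x y}.Finite

/-- The size. -/
noncomputable def bsz (P : Pre Γ B) (y : B) : ℕ := Set.ncard {x | P.le x y}

theorem bsz_smul (P : Pre Γ B) (g : Γ) (y : B) : bsz P (g • y) = bsz P y := by
  refine Set.ncard_congr (fun x _ => g⁻¹ • x) ?_ ?_ ?_
  · intro x hx
    have := P.smul g⁻¹ hx
    rwa [inv_smul_smul] at this
  · intro x x' _ _ h
    exact smul_left_cancel _ h
  · intro x hx
    refine ⟨g • x, P.smul g hx, inv_smul_smul _ _⟩

theorem bsz_le (h : Fin0 P) {x y : B} (hxy : P.le x y) : bsz P x ≤ bsz P y :=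
  Set.ncard_le_ncard (fun _ hz => P.trans hz hxy) (h.finite y)

theorem bsz_eq (h : Fin0 P) {x y : B} (hxy : P.le x y) (he : bsz P x = bsz P y) : x = y := by
  have h1 : {z | P.le z x} = {z | P.le z y} :=
    Set.eq_of_subset_of_ncard_le (fun _ hz => P.trans hz hxy) he.ge (h.finite y)
  have h2 : y ∈ {z | P.le z x} := by rw [h1]; exact P.refl y
  exact h.antisymm x y hxy h2

theorem eq_of_hom (h : Fin0 P) {x y : Bx P} (g : x ⟶ y) (he : bsz P x.pt = bsz P y.pt) :
    x.pt = g.1 • y.pt := bsz_eq h g.2 (by rw [bsz_smul, he])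

theorem end_fix (h : Fin0 P) {x : Bx P} (a : End x) : (a : x ⟶ x).1 • x.pt = x.pt :=
  (eq_of_hom h (a : x ⟶ x) rfl).symm

/-- The category of boxes satisfies the conditions. -/
theorem ei (h : Fin0 P) : EI (Bx P) where
  size := by
    refine ⟨fun x => bsz P x.pt, fun x y g => ⟨?_, fun he => ?_⟩⟩
    · have := bsz_le h g.2
      rwa [bsz_smul] at this
    · have h1 := eq_of_hom h g he
      have h0 : g.1⁻¹ • x.pt = y.pt := inv_smul_eq_iff.2 h1
      have h2 : P.le y.pt (g.1⁻¹ • x.pt) := by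
        rw [h0]; exact P.refl _
      exact ⟨⟨⟨g.1⁻¹, h2⟩, Subtype.ext (mul_inv_cancel _), Subtype.ext (inv_mul_cancel _)⟩⟩
  below := by
    intro y
    classical
    refine ⟨((h.finite y.pt).toFinset.image fun x => cl (Bx.of x : Bx P)), ?_⟩
    rintro x ⟨g⟩
    rw [Finset.mem_image]
    have h1 : P.le (g.1⁻¹ • x.pt) y.pt := by
      have := P.smul g.1⁻¹ g.2
      rwa [inv_smul_smul] at this
    refine ⟨g.1⁻¹ • x.pt, (h.finite y.pt).mem_toFinset.2 h1, cl_eq.2 ⟨⟨⟨g.1⁻¹, P.refl _⟩,
      ⟨g.1, by rw [smul_inv_smul]; exact P.refl _⟩, Subtype.ext (inv_mul_cancel _),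
      Subtype.ext (mul_inv_cancel _)⟩⟩⟩
  free := by
    intro x y
    classical
    let D : Finset B := (h.finite y.pt).toFinset.filter fun z => ∃ g : Γ, g • z = x.pt
    let E := D.equivFin
    have hD : ∀ j : Fin D.card, P.le (E.symm j : B) y.pt ∧ ∃ g : Γ, g • (E.symm j : B) = x.pt := by
      intro j
      have h1 := (E.symm j).2
      rw [Finset.mem_filter, Set.Finite.mem_toFinset] at h1
      exact h1
    choose hle g hg using hD
    let u : Fin D.card → (x ⟶ y) := fun j => ⟨g j, by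
      have := P.smul (g j) (hle j)
      rwa [hg] at this⟩
    refine ⟨D.card, u, ?_, ?_⟩
    · rintro ⟨i, a⟩ ⟨j, b⟩ hab
      have h1 : (a : x ⟶ x).1 * g i = (b : x ⟶ x).1 * g j := congrArg Subtype.val hab
      have h2 : ∀ (i : Fin D.card) (a : End x), ((a : x ⟶ x).1 * g i)⁻¹ • x.pt =
          (E.symm i : B) := by
        intro i a
        have h3 : ((a : x ⟶ x).1 * g i) • (E.symm i : B) = x.pt := by
          rw [mul_smul, hg, end_fix h]
        exact inv_smul_eq_iff.2 h3.symm
      have h4 : (E.symm i : B) = (E.symm j : B) := by rw [← h2 i a, ← h2 j b, h1]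
      have h5 : i = j := E.symm.injective (Subtype.ext h4)
      subst h5
      have h6 : a = b := Subtype.ext (mul_right_cancel h1)
      rw [h6]
    · intro f
      have h1 : P.le (f.1⁻¹ • x.pt) y.pt := by
        have := P.smul f.1⁻¹ f.2
        rwa [inv_smul_smul] at this
      have h2 : f.1⁻¹ • x.pt ∈ D := by
        rw [Finset.mem_filter, Set.Finite.mem_toFinset]
        exact ⟨h1, f.1, smul_inv_smul _ _⟩
      set j := E ⟨_, h2⟩ with hj
      have h3 : (E.symm j : B) = f.1⁻¹ • x.pt := by rw [hj, E.symm_apply_apply]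
      have h4 : (f.1 * (g j)⁻¹) • x.pt = x.pt := by
        have h5 : (g j)⁻¹ • x.pt = (E.symm j : B) := inv_smul_eq_iff.2 (hg j).symm
        rw [mul_smul, h5, h3, smul_inv_smul]
      refine ⟨(j, (⟨f.1 * (g j)⁻¹, by rw [h4]; exact P.refl _⟩ : x ⟶ x)), Subtype.ext ?_⟩
      show f.1 * (g j)⁻¹ * g j = f.1
      rw [inv_mul_cancel_right]

/-- The endomorphisms are the stabilizer. -/
def endEquiv (h : Fin0 P) (x : Bx P) : (End x)ᵐᵒᵖ ≃* MulAction.stabilizer Γ x.pt where
  toFun a := ⟨(a.unop : x ⟶ x).1, end_fix h a.unop⟩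
  invFun g := MulOpposite.op (⟨g.1, by rw [g.2]; exact P.refl _⟩ : x ⟶ x)
  left_inv a := rfl
  right_inv g := rfl
  map_mul' a b := rfl

end

end Pool.Agent.NegK.NT.H78
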