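import Pool.Agent.Lib.MP_28303a_al.NK.FPRes

/-! # Coherent rings: finitely presented modules

`RC A`: finitely generated submodules of finitely generated free modules have finite resolutions by
finitely generated projective modules. -/

set_option autoImplicit false

namespace Pool.Agent.NegK.NT.H78

universe u

section

variable {A : Type u} [Ring A]

/-- The property `TW.RegCoh`. -/
def RC (A : Type u) [Ring A] : Prop :=
  ∀ (n : ℕ) (N : Submodule A (Fin n → A)), N.FG → ∃ d, HasFPRes A d N

theorem HasFPRes.fin {n : ℕ} {M : Type u} [AddCommGroup M] [Module A M] (h : HasFPRes A n M) :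
    Module.Finite A M := by
  cases n with
  | zero => exact h.1
  | succ n =>
    obtain ⟨P, _, _, f, h1, _, h3, _⟩ := h
    exact Module.Finite.of_surjective f h3

theorem HasFPRes.fp {n : ℕ} {M : Type u} [AddCommGroup M] [Module A M] (h : HasFPRes A n M) :
    Module.FinitePresentation A M := by
  cases n with
  | zero =>
    obtain ⟨h1, h2⟩ := h
    exact Module.finitePresentation_of_projective A M
  | succ n =>
    obtain ⟨P, _, _, f, h1, h2, h3, h4⟩ := h
    have := Module.finitePresentation_of_projective A P
    exact Module.finitePresentation_of_surjective f h3 (Module.Finite.iff_fg.1 (HasFPRes.fin h4))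

theorem exists_cover (M : Type u) [AddCommGroup M] [Module A M] [Module.Finite A M] :
    ∃ (n : ℕ) (f : (Fin n → A) →ₗ[A] M), Function.Surjective f :=
  Module.Finite.exists_fin' A M

/-- Finitely generated submodules of finitely presented modules over a coherent ring are finitely
presented. -/
theorem fp_of_fg (h : RC A) {M : Type u} [AddCommGroup M] [Module A M]
    [Module.FinitePresentation A M] (W : Submodule A M) (hW : W.FG) :
    Module.FinitePresentation A W := by
  obtain ⟨n, f, hf⟩ := exists_cover (A := A) M
  have hK : (LinearMap.ker f).FG := Module.FinitePresentation.fg_ker f hf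
  have h1 : (W.comap f).FG := by
    refine Submodule.fg_of_fg_map_of_fg_inf_ker f ?_ ?_
    · rwa [Submodule.map_comap_eq_of_surjective hf]
    · rwa [inf_eq_right.2 (LinearMap.ker_le_comap f)]
  obtain ⟨d, hd⟩ := h n _ h1
  have := HasFPRes.fp hd
  let g : W.comap f →ₗ[A] W := f.restrict (fun x hx => hx)
  have hg : Function.Surjective g := by
    rintro ⟨w, hw⟩
    obtain ⟨x, rfl⟩ := hf w
    exact ⟨⟨x, hw⟩, rfl⟩
  refine Module.finitePresentation_of_surjective g hg ?_
  have h2 : (LinearMap.ker g) = (LinearMap.ker f).comap (W.comap f).subtype := by
    ext x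
    simp only [LinearMap.mem_ker, Submodule.mem_comap]
    exact ⟨fun h => congrArg Subtype.val h, fun h => Subtype.ext h⟩
  rw [h2]
  have h3 : ((LinearMap.ker f).comap (W.comap f).subtype).map (W.comap f).subtype =
      LinearMap.ker f := by
    rw [Submodule.map_comap_subtype, inf_eq_right.2 (LinearMap.ker_le_comap f)]
  refine Submodule.fg_of_fg_map_injective (W.comap f).subtype (Submodule.subtype_injective _) ?_
  rw [h3]
  exact hK

/-- Finitely presented modules have finite resolutions. -/
theorem exists_res (h : RC A) (M : Type u) [AddCommGroup M] [Module A M]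
    [Module.FinitePresentation A M] : ∃ d, HasFPRes A d M := by
  obtain ⟨n, f, hf⟩ := exists_cover (A := A) M
  have hK : (LinearMap.ker f).FG := Module.FinitePresentation.fg_ker f hf
  obtain ⟨d, hd⟩ := h n _ hK
  exact ⟨d + 1, Fin n → A, _, _, f, inferInstance, inferInstance, hf, hd⟩

/-- The property of a linear map to be the first map of a short exact sequence. -/
structure SES {L M N : Type u} [AddCommGroup L] [Module A L] [AddCommGroup M] [Module A M]
    [AddCommGroup N] [Module A N] (f : L →ₗ[A] M) (g : M →ₗ[A] N) : Prop where
  inj : Function.Injective f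
  exact : LinearMap.range f = LinearMap.ker g
  surj : Function.Surjective g

variable {L M N : Type u} [AddCommGroup L] [Module A L] [AddCommGroup M] [Module A M]
    [AddCommGroup N] [Module A N] {f : L →ₗ[A] M} {g : M →ₗ[A] N}

theorem SES.left (h : RC A) (s : SES f g) [Module.FinitePresentation A M]
    [Module.FinitePresentation A N] : Module.FinitePresentation A L := by
  have h1 : (LinearMap.ker g).FG := Module.FinitePresentation.fg_ker g s.surj
  have h2 : (LinearMap.range f).FG := by rw [s.exact]; exact h1
  have h3 := fp_of_fg h _ h2
  exact Module.FinitePresentation.of_equiv (LinearEquiv.ofInjective f s.inj).symm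

theorem SES.mid (s : SES f g) [Module.FinitePresentation A L]
    [Module.FinitePresentation A N] : Module.FinitePresentation A M := by
  have : Module.FinitePresentation A (LinearMap.ker g) :=
    Module.FinitePresentation.of_equiv
      ((LinearEquiv.ofInjective f s.inj).trans (LinearEquiv.ofEq _ _ s.exact))
  exact Module.finitePresentation_of_ker g s.surj

theorem SES.right (s : SES f g) [Module.Finite A L]
    [Module.FinitePresentation A M] : Module.FinitePresentation A N := by
  refine Module.finitePresentation_of_surjective g s.surj ?_
  rw [← s.exact, LinearMap.range_eq_map]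
  exact Submodule.FG.map f Module.Finite.fg_top

end

end Pool.Agent.NegK.NT.H78
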