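import Pool.Agent.Lib.MP_28303a_al.NT.H78.Box

/-! # The functors of finite located modules are sums of representable functors -/

set_option autoImplicit false

namespace Pool.Agent.NegK.NT.H78

open CategoryTheory Limits Opposite

universe u

section

variable {k : Type u} [Ring k] {Γ : Type u} [Group Γ] {B : Type u} [MulAction Γ B] {P : Pre Γ B}

/-- An element of a value of `ev A`. -/
noncomputable def evx (A : Loc k P) {U : Bx P} (x : A.F) (h : x ∈ A.evS U.pt) :
    Val (Loc.ev.obj A) U := (⟨x, h⟩ : A.evS U.pt)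

/-- The underlying vector. -/
noncomputable def evv (A : Loc k P) {U : Bx P} : Val (Loc.ev.obj A) U →ₗ[k] A.F :=
  (A.evS U.pt).subtype

theorem evv_evx (A : Loc k P) {U : Bx P} (x : A.F) (h : x ∈ A.evS U.pt) :
    evv A (evx A x h : Val (Loc.ev.obj A) U) = x := rfl

theorem evv_injective (A : Loc k P) {U : Bx P} :
    Function.Injective (evv A : Val (Loc.ev.obj A) U →ₗ[k] A.F) := Subtype.val_injective

theorem evv_mem (A : Loc k P) {U : Bx P} (x : Val (Loc.ev.obj A) U) : evv A x ∈ A.evS U.pt :=
  (x : A.evS U.pt).2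

theorem evv_res (A : Loc k P) {U V : Bx P} (f : U ⟶ V) (x : Val (Loc.ev.obj A) V) :
    evv A (res (Loc.ev.obj A) f x) = (MonoidAlgebra.single (Bx.el f) (1 : k)) • evv A x := rfl

variable {n : ℕ} (A : Loc k P) (e : A.ι ≃ Fin n)

/-- The locations. -/
def lo : Fin n → Bx P := fun i => Bx.of (A.loc (e.symm i))

theorem lo_mem (i : Fin n) : (Finsupp.single (e.symm i) 1 : A.F) ∈ A.evS (lo A e i).pt :=
  A.single_mem (e.symm i)

/-- The map from the sum of representables to `ev A`. -/
noncomputable def phi : PS k (lo A e) ⟶ Loc.ev.obj A :=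
  lift (lo A e) fun i => evx A (Finsupp.single (e.symm i) 1) (lo_mem A e i)

/-- The coefficients of the elements of `PS`. -/
noncomputable def pco {C : Type u} [Category.{u} C] {ι : Type} (loc : ι → C) {U : C}
    (p : Σ i, (U ⟶ loc i)) : Val (PS k loc) U →ₗ[k] k := Finsupp.lapply p

open Classical in
theorem pco_pg {C : Type u} [Category.{u} C] {ι : Type} (loc : ι → C) {U : C}
    (p : Σ i, (U ⟶ loc i)) (i : ι) (f : U ⟶ loc i) (r : k) :
    pco loc p (pg loc i f r) = if (⟨i, f⟩ : Σ i, (U ⟶ loc i)) = p then r else 0 :=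
  Finsupp.single_apply

theorem pco_ext {C : Type u} [Category.{u} C] {ι : Type} (loc : ι → C) {U : C}
    {x : Val (PS k loc) U} (h : ∀ p, pco loc p x = 0) : x = 0 :=
  Finsupp.ext (M := k) (f := x) (g := 0) h

theorem phi_pg {U : Bx P} (i : Fin n) (f : U ⟶ lo A e i) (r : k) :
    evv A (vmap (phi A e) U (pg (lo A e) i f r)) =
      Finsupp.single (e.symm i) (MonoidAlgebra.single (Bx.el f) r) := by
  rw [phi, lift_pg, map_smul, evv_res, evv_evx, Finsupp.smul_single, smul_eq_mul, mul_one,
    Finsupp.smul_single, Loc.smul_one_single, MonoidAlgebra.single_mul_single, one_mul, mul_one]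

theorem phi_coeff {U : Bx P} (z : Val (PS k (lo A e)) U) (i : Fin n) (f : U ⟶ lo A e i) :
    ((evv A (vmap (phi A e) U z)) (e.symm i)).coeff (Bx.el f) =
      pco (lo A e) ⟨i, f⟩ z := by
  classical
  induction z using pg_induction with
  | h0 => rw [map_zero, map_zero, map_zero]; rfl
  | hadd x y hx hy =>
    rw [map_add, map_add, map_add, Finsupp.add_apply, MonoidAlgebra.coeff_add,
      Finsupp.add_apply, hx, hy]
  | h j g r =>
    rw [phi_pg, pco_pg, Finsupp.single_apply]
    by_cases hij : j = i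
    · subst hij
      rw [if_pos rfl, MonoidAlgebra.coeff_single, Finsupp.single_apply]
      by_cases hfg : g = f
      · subst hfg
        rw [if_pos rfl, if_pos rfl]
      · rw [if_neg fun h => hfg (Bx.hom_ext h), if_neg]
        intro h
        exact hfg (by simpa using h)
    · rw [if_neg fun h => hij (e.symm.injective h), if_neg]
      · rfl
      · intro h
        exact hij (congrArg Sigma.fst h)

theorem phi_injective (U : Bx P) : Function.Injective (vmap (phi A e) U) := by
  rw [injective_iff_map_eq_zero]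
  intro z hz
  refine pco_ext _ ?_
  rintro ⟨i, f⟩
  rw [← phi_coeff, hz, map_zero]
  rfl

theorem phi_surjective (U : Bx P) : Function.Surjective (vmap (phi A e) U) := by
  classical
  intro x
  have h1 : evv A x = (evv A x).sum fun i a => a.coeff.sum fun g r =>
      Finsupp.single i (MonoidAlgebra.single g r : MonoidAlgebra k Γ) := by
    conv_lhs => rw [← (evv A x).sum_single]
    refine Finsupp.sum_congr fun i _ => ?_
    have h2 : (evv A x i) = (evv A x i).coeff.sum fun g r =>
      (MonoidAlgebra.single g r : MonoidAlgebra k Γ) :=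
      (MonoidAlgebra.sum_coeff_single (evv A x i)).symm
    conv_lhs => rw [h2]
    rw [Finsupp.sum, Finsupp.single_finsetSum, Finsupp.sum]
  have h3 : ∀ (i : A.ι) (g : Γ), g ∈ (evv A x i).coeff.support → ∃ z : Val (PS k (lo A e)) U,
      evv A (vmap (phi A e) U z) =
        Finsupp.single i (MonoidAlgebra.single g ((evv A x i).coeff g)) := by
    intro i g hg
    have h4 : P.le U.pt (g • A.loc i) := evv_mem A x i g (Finsupp.mem_support_iff.1 hg)
    have h5 : e.symm (e i) = i := e.symm_apply_apply i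
    have h6 : P.le U.pt (g • (lo A e (e i)).pt) := by
      show P.le U.pt (g • A.loc (e.symm (e i)))
      rw [h5]; exact h4
    refine ⟨pg (lo A e) (e i) (Bx.mk' g h6) ((evv A x i).coeff g), ?_⟩
    rw [phi_pg, h5, Bx.el_mk']
  have h7 : evv A x ∈ LinearMap.range (evv A ∘ₗ vk (phi A e) U) := by
    rw [h1, Finsupp.sum]
    refine sum_mem fun i _ => ?_
    rw [Finsupp.sum]
    refine sum_mem fun g hg => ?_
    obtain ⟨z, hz⟩ := h3 i g hg
    exact ⟨z, hz⟩
  obtain ⟨z, hz⟩ := h7
  exact ⟨z, evv_injective A hz⟩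

/-- `ev A` is a sum of representable functors. -/
theorem isIso_phi : IsIso (phi A e) := by
  have h1 := epi_of_val (phi A e) (phi_surjective A e)
  have h2 := mono_of_val (phi A e) (phi_injective A e)
  exact isIso_of_mono_of_epi _

theorem exists_iso_ps [Finite A.ι] :
    ∃ (n : ℕ) (loc : Fin n → Bx P), Nonempty (PS k loc ≅ Loc.ev.obj A) := by
  have := Fintype.ofFinite A.ι
  have h := isIso_phi A (Fintype.equivFin A.ι)
  exact ⟨_, _, ⟨@asIso _ _ _ _ (phi A (Fintype.equivFin A.ι)) h⟩⟩

theorem exists_iso_ev (n : ℕ) (U : Bx P) :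
    ∃ A : Loc k P, Finite A.ι ∧ Nonempty (PS k (fun _ : Fin n => U) ≅ Loc.ev.obj A) := by
  let A : Loc k P := ⟨ULift (Fin n), fun _ => U.pt⟩
  let e : A.ι ≃ Fin n := Equiv.ulift
  have h := isIso_phi A e
  exact ⟨A, inferInstanceAs (Finite (ULift (Fin n))), ⟨@asIso _ _ _ _ (phi A e) h⟩⟩

end

end Pool.Agent.NegK.NT.H78
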