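import Pool.Agent.Lib.MP_28303a_al.NT.H78.Val

/-! # Functors of finite support with finitely presented values -/

set_option autoImplicit false

namespace Pool.Agent.NegK.NT.H78

open CategoryTheory Limits Opposite

universe u

/-- Isomorphism classes of objects. -/
abbrev Cl (B : Type u) [Category.{u} B] : Type u := Quotient (isIsomorphicSetoid B)

/-- The isomorphism class. -/
def cl {B : Type u} [Category.{u} B] (U : B) : Cl B := Quotient.mk _ U

theorem cl_eq {B : Type u} [Category.{u} B] {U V : B} : cl U = cl V ↔ Nonempty (U ≅ V) :=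
  Quotient.eq

section

variable {k : Type u} [Ring k] {B : Type u} [Category.{u} B]

theorem nontrivial_iso (M : Fn k B) {U V : B} (e : U ≅ V) (h : Nontrivial (Val M U)) :
    Nontrivial (Val M V) := by
  obtain ⟨x, hx⟩ := exists_ne (0 : Val M U)
  refine ⟨⟨res M e.inv x, 0, fun h0 => hx ?_⟩⟩
  rw [← res_id M U x, ← e.hom_inv_id, res_comp, h0, map_zero]

/-- Functors of finite support with finitely presented values. -/
structure FPV (M : Fn k B) : Prop where
  supp : ∃ D : Finset (Cl B), ∀ U : B, Nontrivial (Val M U) → cl U ∈ D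
  fp : ∀ U : B, Module.FinitePresentation (Rg k U) (Val M U)

theorem not_nontrivial_iff {X : Type u} [AddCommGroup X] :
    ¬ Nontrivial X ↔ ∀ x : X, x = 0 := by
  rw [not_nontrivial_iff_subsingleton]
  exact ⟨fun h x => Subsingleton.elim _ _, fun h => ⟨fun x y => by rw [h x, h y]⟩⟩

theorem nontrivial_of_injective {X Y : Type u} [AddCommGroup X] [AddCommGroup Y] {A : Type u}
    [Ring A] [Module A X] [Module A Y] (f : X →ₗ[A] Y) (hf : Function.Injective f)
    (h : Nontrivial X) : Nontrivial Y := hf.nontrivial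

theorem nontrivial_of_surjective {X Y : Type u} [AddCommGroup X] [AddCommGroup Y] {A : Type u}
    [Ring A] [Module A X] [Module A Y] (f : X →ₗ[A] Y) (hf : Function.Surjective f)
    (h : Nontrivial Y) : Nontrivial X := hf.nontrivial

theorem SES.nontrivial {A : Type u} [Ring A] {L M N : Type u} [AddCommGroup L] [Module A L]
    [AddCommGroup M] [Module A M] [AddCommGroup N] [Module A N] {f : L →ₗ[A] M} {g : M →ₗ[A] N}
    (s : SES f g) (h : Nontrivial M) : Nontrivial L ∨ Nontrivial N := by
  by_contra hc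
  rw [not_or, not_nontrivial_iff, not_nontrivial_iff] at hc
  obtain ⟨x, hx⟩ := exists_ne (0 : M)
  have h1 : x ∈ LinearMap.range f := by
    rw [s.exact]
    exact hc.2 _
  obtain ⟨y, rfl⟩ := h1
  exact hx (by rw [hc.1 y, map_zero])

/-- `M ↠ I ↪ N`. -/
theorem FPV.image (hR : ∀ U : B, RC (Rg k U)) {M I N : Fn k B} (e : M ⟶ I) [Epi e]
    (m : I ⟶ N) [Mono m] (hM : FPV M) (hN : FPV N) : FPV I := by
  refine ⟨?_, fun U => ?_⟩
  · obtain ⟨D, hD⟩ := hM.supp
    exact ⟨D, fun U h => hD U (nontrivial_of_surjective _ (vmap_surjective e U) h)⟩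
  · have := hN.fp U
    have := hM.fp U
    have h1 : (LinearMap.range (vmap m U)).FG := by
      have h2 : LinearMap.range (vmap m U) = LinearMap.range (vmap m U ∘ₗ vmap e U) := by
        rw [LinearMap.range_comp_of_range_eq_top _
          (LinearMap.range_eq_top.2 (vmap_surjective e U))]
      rw [h2, LinearMap.range_eq_map]
      exact Submodule.FG.map _ Module.Finite.fg_top
    have := fp_of_fg (hR U) _ h1
    exact Module.FinitePresentation.of_equiv
      (LinearEquiv.ofInjective (vmap m U) (vmap_injective m U)).symm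

theorem FPV.left (hR : ∀ U : B, RC (Rg k U)) {S : ShortComplex (Fn k B)} (h : S.ShortExact)
    (h2 : FPV S.X₂) (h3 : FPV S.X₃) : FPV S.X₁ := by
  refine ⟨?_, fun U => ?_⟩
  · obtain ⟨D, hD⟩ := h2.supp
    exact ⟨D, fun U h' => hD U (nontrivial_of_injective _ (ses_val h U).inj h')⟩
  · have := h2.fp U
    have := h3.fp U
    exact (ses_val h U).left (hR U)

theorem FPV.mid {S : ShortComplex (Fn k B)} (h : S.ShortExact)
    (h1 : FPV S.X₁) (h3 : FPV S.X₃) : FPV S.X₂ := by
  classical
  refine ⟨?_, fun U => ?_⟩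
  · obtain ⟨D, hD⟩ := h1.supp
    obtain ⟨D', hD'⟩ := h3.supp
    refine ⟨D ∪ D', fun U h' => ?_⟩
    rw [Finset.mem_union]
    exact (ses_val h U).nontrivial h' |>.imp (hD U) (hD' U)
  · have := h1.fp U
    have := h3.fp U
    exact (ses_val h U).mid

theorem FPV.right {S : ShortComplex (Fn k B)} (h : S.ShortExact)
    (h1 : FPV S.X₁) (h2 : FPV S.X₂) : FPV S.X₃ := by
  refine ⟨?_, fun U => ?_⟩
  · obtain ⟨D, hD⟩ := h2.supp
    exact ⟨D, fun U h' => hD U (nontrivial_of_surjective _ (ses_val h U).surj h')⟩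
  · have := h1.fp U
    have := h2.fp U
    exact (ses_val h U).right

/-- The kernel of an epimorphism. -/
theorem ses_ker {M N : Fn k B} (g : M ⟶ N) [Epi g] :
    (ShortComplex.mk (kernel.ι g) g (kernel.condition g)).ShortExact where
  exact := ShortComplex.exact_of_f_is_kernel _ (kernelIsKernel g)

/-- The cokernel of a monomorphism. -/
theorem ses_coker {M N : Fn k B} (f : M ⟶ N) [Mono f] :
    (ShortComplex.mk f (cokernel.π f) (cokernel.condition f)).ShortExact where
  exact := ShortComplex.exact_of_g_is_cokernel _ (cokernelIsCokernel f)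

theorem FPV.iso {M N : Fn k B} (e : M ≅ N) (h : FPV M) : FPV N := by
  refine ⟨?_, fun U => ?_⟩
  · obtain ⟨D, hD⟩ := h.supp
    exact ⟨D, fun U h' => hD U (nontrivial_of_surjective _ (vmap_surjective e.hom U) h')⟩
  · have := h.fp U
    exact Module.FinitePresentation.of_equiv
      (LinearEquiv.ofBijective (vmap e.hom U) ⟨vmap_injective e.hom U, vmap_surjective e.hom U⟩)

theorem FPV.abImage (hR : ∀ U : B, RC (Rg k U)) {M N : Fn k B} (f : M ⟶ N) (hM : FPV M)
    (hN : FPV N) : FPV (Abelian.image f) :=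
  FPV.image hR (Abelian.factorThruImage f) (Abelian.image.ι f) hM hN

theorem FPV.ker (hR : ∀ U : B, RC (Rg k U)) {M N : Fn k B} (f : M ⟶ N) (hM : FPV M)
    (hN : FPV N) : FPV (kernel f) := by
  have h1 := FPV.left hR (ses_ker (Abelian.factorThruImage f)) hM (FPV.abImage hR f hM hN)
  refine h1.iso ?_
  refine (kernelCompMono (Abelian.factorThruImage f) (Abelian.image.ι f)).symm ≪≫ ?_
  exact kernelIsoOfEq (Abelian.image.fac f)

theorem FPV.coker (hR : ∀ U : B, RC (Rg k U)) {M N : Fn k B} (f : M ⟶ N) (hM : FPV M)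
    (hN : FPV N) : FPV (cokernel f) := by
  have h1 := FPV.right (ses_coker (Abelian.image.ι f)) (FPV.abImage hR f hM hN) hN
  refine h1.iso ?_
  refine (cokernelEpiComp (Abelian.factorThruImage f) (Abelian.image.ι f)).symm ≪≫ ?_
  exact cokernelIsoOfEq (Abelian.image.fac f)

theorem FPV.retract (hR : ∀ U : B, RC (Rg k U)) {M N : Fn k B} (r : Retract M N) (hN : FPV N) :
    FPV M := by
  have h1 : Epi r.r := (IsSplitEpi.mk' ⟨r.i, r.retract⟩ : IsSplitEpi r.r).epi
  have h2 : Mono r.i := (IsSplitMono.mk' ⟨r.r, r.retract⟩ : IsSplitMono r.i).mono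
  exact FPV.image hR r.r r.i hN hN

theorem FPV.zero {M : Fn k B} (h : IsZero M) : FPV M := by
  have h1 : ∀ U : B, ∀ x : Val M U, x = 0 := fun U x => by
    have h2 : (𝟙 M) = 0 := h.eq_of_src _ _
    have h3 : vmap (𝟙 M) U x = vmap (0 : M ⟶ M) U x := by rw [h2]
    exact h3
  refine ⟨⟨∅, fun U h' => ?_⟩, fun U => ?_⟩
  · exact absurd h' (not_nontrivial_iff.2 (h1 U))
  · have : Subsingleton (Val M U) := ⟨fun x y => by rw [h1 U x, h1 U y]⟩
    infer_instance

end

end Pool.Agent.NegK.NT.H78
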