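import Pool.Agent.Lib.MP_28303a_al.NT.H78.Ps

/-! # The values of sums of representable functors are free -/

set_option autoImplicit false

namespace Pool.Agent.NegK.NT.H78

open CategoryTheory Limits Opposite

universe u

section

variable {k : Type u} [Ring k] {B : Type u} [Category.{u} B] {ι : Type} (loc : ι → B)

/-- Free generators of the values of `PS`. -/
theorem exists_basis (hB : EI B) [Finite ι] (U : B) :
    ∃ (J : Type) (_ : Finite J), Nonempty ((J →₀ Rg k U) ≃ₗ[Rg k U] Val (PS k loc) U) := by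
  classical
  choose n u hu using fun i => hB.free U (loc i)
  let J : Type := Σ i, Fin (n i)
  have hJ : Finite J := inferInstance
  let E : ∀ i, (Fin (n i) × End U) ≃ (U ⟶ loc i) := fun i => Equiv.ofBijective _ (hu i)
  let Φ : (J →₀ Rg k U) →ₗ[Rg k U] Val (PS k loc) U :=
    Finsupp.linearCombination (Rg k U) (fun j : J => pg loc j.1 (u j.1 j.2) (1 : k))
  have hΦ : ∀ (j : J) (a : End U) (r : k),
      Φ (Finsupp.single j (MonoidAlgebra.single (MulOpposite.op a) r)) =
        pg loc j.1 (a ≫ u j.1 j.2) r := by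
    intro j a r
    have h1 : Φ (Finsupp.single j (MonoidAlgebra.single (MulOpposite.op a) r)) =
      (MonoidAlgebra.single (MulOpposite.op a) r : Rg k U) •
        pg loc j.1 (u j.1 j.2) (1 : k) := Finsupp.linearCombination_single ..
    rw [h1, single_smul, res_pg, smul_pg, mul_one]
  let Ψ : Val (PS k loc) U →+ (J →₀ Rg k U) :=
    (Finsupp.liftAddHom (fun p : (Σ i, (U ⟶ loc i)) =>
      ((Finsupp.singleAddHom (⟨p.1, ((E p.1).symm p.2).1⟩ : J)).comp
        (MonoidAlgebra.singleAddHom (MulOpposite.op ((E p.1).symm p.2).2)) :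
          k →+ (J →₀ Rg k U))))
  have hΨ : ∀ (i : ι) (g : U ⟶ loc i) (r : k), Ψ (pg loc i g r) =
      Finsupp.single (⟨i, ((E i).symm g).1⟩ : J)
        (MonoidAlgebra.single (MulOpposite.op ((E i).symm g).2) r) := by
    intro i g r
    exact Finsupp.liftAddHom_apply_single _ _ _
  have h3 : Ψ.comp Φ.toAddMonoidHom = AddMonoidHom.id _ := by
    refine Finsupp.addHom_ext' fun j => ?_
    refine MonoidAlgebra.addMonoidHom_ext fun a r => ?_
    show Ψ (Φ (Finsupp.single j (MonoidAlgebra.single a r))) =
      Finsupp.single j (MonoidAlgebra.single a r)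
    induction a using MulOpposite.rec' with
    | h a =>
      rw [hΦ, hΨ]
      have h4 : (E j.1).symm (a ≫ u j.1 j.2) = (j.2, a) := by
        rw [Equiv.symm_apply_eq]; rfl
      rw [h4]
  refine ⟨J, hJ, ⟨LinearEquiv.ofBijective Φ ⟨?_, ?_⟩⟩⟩
  · exact Function.LeftInverse.injective (g := Ψ) fun x => DFunLike.congr_fun h3 x
  · intro x
    induction x using pg_induction with
    | h0 => exact ⟨0, map_zero _⟩
    | hadd x y hx hy =>
      obtain ⟨x', rfl⟩ := hx
      obtain ⟨y', rfl⟩ := hy
      exact ⟨x' + y', map_add _ _ _⟩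
    | h i g r =>
      refine ⟨Finsupp.single (⟨i, ((E i).symm g).1⟩ : J)
        (MonoidAlgebra.single (MulOpposite.op ((E i).symm g).2) r), ?_⟩
      rw [hΦ]
      have h5 : ((E i).symm g).2 ≫ u i ((E i).symm g).1 = g := (E i).apply_symm_apply g
      rw [h5]

theorem free_val (hB : EI B) [Finite ι] (U : B) : Module.Free (Rg k U) (Val (PS k loc) U) := by
  obtain ⟨J, _, ⟨e⟩⟩ := exists_basis (k := k) loc hB U
  exact Module.Free.of_equiv e

theorem finite_val (hB : EI B) [Finite ι] (U : B) :
    Module.Finite (Rg k U) (Val (PS k loc) U) := by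
  obtain ⟨J, _, ⟨e⟩⟩ := exists_basis (k := k) loc hB U
  exact Module.Finite.equiv e

theorem fp_val (hB : EI B) [Finite ι] (U : B) :
    Module.FinitePresentation (Rg k U) (Val (PS k loc) U) := by
  have := free_val (k := k) loc hB U
  have := finite_val (k := k) loc hB U
  exact Module.finitePresentation_of_projective _ _

theorem exists_hom_of_nontrivial {U : B} (h : Nontrivial (Val (PS k loc) U)) :
    ∃ i, Nonempty (U ⟶ loc i) := by
  by_contra hc
  rw [not_exists] at hc
  refine not_nontrivial_iff.2 (fun x => ?_) h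
  induction x using pg_induction with
  | h0 => rfl
  | hadd x y hx hy => rw [hx, hy, add_zero]
  | h i a r => exact absurd ⟨a⟩ (hc i)

theorem FPV.ps (hB : EI B) [Finite ι] : FPV (PS k loc) := by
  classical
  refine ⟨?_, fun U => fp_val loc hB U⟩
  choose D hD using fun i => hB.below (loc i)
  have := Fintype.ofFinite ι
  refine ⟨Finset.univ.biUnion D, fun U h => ?_⟩
  obtain ⟨i, hi⟩ := exists_hom_of_nontrivial loc h
  exact Finset.mem_biUnion.2 ⟨i, Finset.mem_univ _, hD i U hi⟩

end

end Pool.Agent.NegK.NT.H78
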