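import Pool.Agent.Lib.MP_28303a_al.NT.H78.Fpv

/-! # Sums of representable functors -/

set_option autoImplicit false

namespace Pool.Agent.NegK.NT.H78

open CategoryTheory Limits Opposite

universe u

/-- The conditions on the category. -/
structure EI (B : Type u) [Category.{u} B] : Prop where
  size : ∃ sz : B → ℕ, ∀ (U V : B) (f : U ⟶ V), sz U ≤ sz V ∧ (sz U = sz V → IsIso f)
  below : ∀ V : B, ∃ D : Finset (Cl B), ∀ U : B, Nonempty (U ⟶ V) → cl U ∈ D
  free : ∀ U V : B, ∃ (n : ℕ) (u : Fin n → (U ⟶ V)),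
    Function.Bijective (fun p : Fin n × End U => (p.2 ≫ u p.1 : U ⟶ V))

section

variable {k : Type u} [Ring k] {B : Type u} [Category.{u} B] {ι : Type}

/-- The sum of the representable functors `k[Hom(-, loc i)]`. -/
noncomputable def PS (k : Type u) [Ring k] {B : Type u} [Category.{u} B] {ι : Type}
    (loc : ι → B) : Fn k B where
  obj W := ModuleCat.of k ((Σ i, (W.unop ⟶ loc i)) →₀ k)
  map f := ModuleCat.ofHom (Finsupp.lmapDomain k k (fun p => ⟨p.1, f.unop ≫ p.2⟩))
  map_id W := by
    ext x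
    simp
  map_comp f g := by
    ext x
    simp

variable (loc : ι → B)

/-- The basis elements of the values. -/
noncomputable def pg {U : B} (i : ι) (f : U ⟶ loc i) (r : k) : Val (PS k loc) U :=
  (Finsupp.single ⟨i, f⟩ r : (Σ i, (U ⟶ loc i)) →₀ k)

theorem res_pg {U V : B} (g : U ⟶ V) (i : ι) (f : V ⟶ loc i) (r : k) :
    res (PS k loc) g (pg loc i f r) = pg loc i (g ≫ f) r := by
  show Finsupp.lmapDomain k k (fun p : (Σ i, (V ⟶ loc i)) => (⟨p.1, g ≫ p.2⟩ :
    Σ i, (U ⟶ loc i))) (Finsupp.single ⟨i, f⟩ r) = Finsupp.single ⟨i, g ≫ f⟩ r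
  rw [Finsupp.lmapDomain_apply, Finsupp.mapDomain_single]

theorem smul_pg {U : B} (i : ι) (f : U ⟶ loc i) (s r : k) :
    s • pg loc i f r = pg loc i f (s * r) :=
  Finsupp.smul_single _ _ _

theorem pg_zero {U : B} (i : ι) (f : U ⟶ loc i) : pg loc i f (0 : k) = 0 :=
  Finsupp.single_zero _

theorem pg_add {U : B} (i : ι) (f : U ⟶ loc i) (r s : k) :
    pg loc i f (r + s) = pg loc i f r + pg loc i f s :=
  Finsupp.single_add _ _ _

theorem pg_hom_ext {U : B} {Y : Type*} [AddCommGroup Y] {f g : Val (PS k loc) U →+ Y}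
    (h : ∀ i (a : U ⟶ loc i) (r : k), f (pg loc i a r) = g (pg loc i a r)) : f = g :=
  Finsupp.addHom_ext fun p r => h p.1 p.2 r

theorem pg_induction {U : B} {P : Val (PS k loc) U → Prop} (x : Val (PS k loc) U) (h0 : P 0)
    (hadd : ∀ x y, P x → P y → P (x + y)) (h : ∀ i (a : U ⟶ loc i) (r : k), P (pg loc i a r)) :
    P x :=
  Finsupp.induction_linear (motive := P) x h0 hadd fun p r => h p.1 p.2 r

/-- The map out of `PS`, on values. -/
noncomputable def lc {M : Fn k B} (x : ∀ i, Val M (loc i)) (U : B) :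
    Val (PS k loc) U →ₗ[k] Val M U :=
  Finsupp.linearCombination k (fun p : (Σ i, (U ⟶ loc i)) => res M p.2 (x p.1))

theorem lc_pg {M : Fn k B} (x : ∀ i, Val M (loc i)) {U : B} (i : ι) (f : U ⟶ loc i) (r : k) :
    lc loc x U (pg loc i f r) = r • res M f (x i) :=
  Finsupp.linearCombination_single ..

/-- The map out of `PS`. -/
noncomputable def lift {M : Fn k B} (x : ∀ i, Val M (loc i)) : PS k loc ⟶ M where
  app W := ModuleCat.ofHom (lc loc x W.unop)
  naturality W W' f := by
    refine ModuleCat.hom_ext ?_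
    have h1 : (lc loc x W'.unop ∘ₗ res (PS k loc) f.unop).toAddMonoidHom =
        (res M f.unop ∘ₗ lc loc x W.unop).toAddMonoidHom := by
      refine pg_hom_ext loc fun i a r => ?_
      show lc loc x W'.unop (res (PS k loc) f.unop (pg loc i a r)) =
        res M f.unop (lc loc x W.unop (pg loc i a r))
      rw [res_pg, lc_pg, lc_pg, map_smul, res_comp]
    exact LinearMap.ext fun y => DFunLike.congr_fun h1 y

theorem lift_pg {M : Fn k B} (x : ∀ i, Val M (loc i)) {U : B} (i : ι) (f : U ⟶ loc i) (r : k) :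
    vmap (lift loc x) U (pg loc i f r) = r • res M f (x i) := lc_pg loc x i f r

/-- Maps out of `PS` are determined by the images of the generators. -/
theorem hom_ext {M : Fn k B} {f g : PS k loc ⟶ M}
    (h : ∀ i, vmap f (loc i) (pg loc i (𝟙 _) 1) = vmap g (loc i) (pg loc i (𝟙 _) 1)) : f = g := by
  refine NatTrans.ext (funext fun W => ModuleCat.hom_ext ?_)
  have h1 : (vmap f W.unop).toAddMonoidHom = (vmap g W.unop).toAddMonoidHom := by
    refine pg_hom_ext loc fun i a r => ?_
    have h2 : pg loc i a r = r • res (PS k loc) a (pg loc i (𝟙 _) 1) := by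
      rw [res_pg, smul_pg, mul_one, Category.comp_id]
    show vk f W.unop _ = vk g W.unop _
    rw [h2, map_smul, map_smul, vk_res, vk_res]
    exact congrArg (fun z => r • res M a z) (h i)
  exact LinearMap.ext fun x => DFunLike.congr_fun h1 x

end

end Pool.Agent.NegK.NT.H78
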