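import Pool.Agent.Lib.MP_28303a_al.NT.H78.Reg

/-! # Functors with finitely presented values are quotients of finite sums of representables -/

set_option autoImplicit false

namespace Pool.Agent.NegK.NT.H78

open CategoryTheory Limits Opposite

universe u

section

variable {k : Type u} [Ring k] {B : Type u} [Category.{u} B]

theorem epi_of_val {M N : Fn k B} (g : M ⟶ N) (h : ∀ U : B, Function.Surjective (vmap g U)) :
    Epi g := by
  have : ∀ W, Epi (g.app W) := fun W => (ModuleCat.epi_iff_surjective _).2 (h W.unop)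
  exact NatTrans.epi_of_epi_app g

theorem mono_of_val {M N : Fn k B} (g : M ⟶ N) (h : ∀ U : B, Function.Injective (vmap g U)) :
    Mono g := by
  have : ∀ W, Mono (g.app W) := fun W => (ModuleCat.mono_iff_injective _).2 (h W.unop)
  exact NatTrans.mono_of_mono_app g

theorem exists_epi (M : Fn k B) (hM : FPV M) :
    ∃ (ι : Type) (_ : Finite ι) (loc : ι → B) (g : PS k loc ⟶ M), Epi g := by
  classical
  obtain ⟨D, hD⟩ := hM.supp
  let E := D.equivFin
  let Uj : Fin D.card → B := fun j => (E.symm j : Cl B).out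
  have hfg : ∀ j, ∃ (n : ℕ) (x : Fin n → Val M (Uj j)),
      Submodule.span (Rg k (Uj j)) (Set.range x) = ⊤ := fun j => by
    have := hM.fp (Uj j)
    exact Module.Finite.exists_fin (R := Rg k (Uj j)) (M := Val M (Uj j))
  choose n x hx using hfg
  let ι : Type := Σ j : Fin D.card, Fin (n j)
  let loc : ι → B := fun p => Uj p.1
  let g : PS k loc ⟶ M := lift loc fun p => x p.1 p.2
  refine ⟨ι, inferInstance, loc, g, epi_of_val g fun V y => ?_⟩
  by_cases hV : Nontrivial (Val M V)
  · obtain ⟨e⟩ := cl_eq.1 (show cl V = cl (Uj (E ⟨cl V, hD V hV⟩)) by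
      show cl V = Quotient.mk _ (Quotient.out _)
      rw [Quotient.out_eq, E.symm_apply_apply])
    set j := E ⟨cl V, hD V hV⟩ with hj
    have h1 : ∀ z : Val M (Uj j), ∃ w, vmap g (Uj j) w = z := by
      intro z
      have h2 : z ∈ Submodule.span (Rg k (Uj j)) (Set.range (x j)) := by
        rw [hx j]; exact Submodule.mem_top
      have h3 : Submodule.span (Rg k (Uj j)) (Set.range (x j)) ≤
          LinearMap.range (vmap g (Uj j)) := by
        rw [Submodule.span_le]
        rintro _ ⟨i, rfl⟩
        refine ⟨pg loc (⟨j, i⟩ : ι) (𝟙 (Uj j)) 1, ?_⟩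
        rw [lift_pg, one_smul, res_id]
      exact h3 h2
    obtain ⟨w, hw⟩ := h1 (res M e.inv y)
    refine ⟨res (PS k loc) e.hom w, ?_⟩
    rw [vmap_res, hw, ← res_comp, e.hom_inv_id, res_id]
  · exact ⟨0, by rw [map_zero]; exact (not_nontrivial_iff.1 hV y).symm⟩

end

end Pool.Agent.NegK.NT.H78
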