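import Pool.Agent.Lib.MP_28303a_al.NT.H78.Free

/-! # Induction principle for functors with finitely presented values -/

set_option autoImplicit false

namespace Pool.Agent.NegK.NT.H78

open CategoryTheory Limits Opposite

universe u

section

variable {k : Type u} [Ring k] {B : Type u} [Category.{u} B]

/-- A class of functors closed under 2 of 3 and isomorphisms, which contains the retracts of
the finite sums of a representable functor. -/
structure Good (Φ : Fn k B → Prop) : Prop where
  left : ∀ S : ShortComplex (Fn k B), S.ShortExact → Φ S.X₂ → Φ S.X₃ → Φ S.X₁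
  mid : ∀ S : ShortComplex (Fn k B), S.ShortExact → Φ S.X₁ → Φ S.X₃ → Φ S.X₂
  right : ∀ S : ShortComplex (Fn k B), S.ShortExact → Φ S.X₁ → Φ S.X₂ → Φ S.X₃
  iso : ∀ M N : Fn k B, Nonempty (M ≅ N) → Φ M → Φ N
  zero : ∀ M : Fn k B, IsZero M → Φ M
  rep : ∀ (n : ℕ) (U : B) (M : Fn k B), Nonempty (Retract M (PS k (fun _ : Fin n => U))) → Φ M

theorem Good.of_iso {Φ : Fn k B → Prop} (h : Good Φ) {M N : Fn k B} (e : M ≅ N) (hM : Φ M) :
    Φ N := h.iso M N ⟨e⟩ hM

theorem Good.rep' {Φ : Fn k B → Prop} (h : Good Φ) (n : ℕ) (U : B) :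
    Φ (PS k (fun _ : Fin n => U)) := h.rep n U _ ⟨⟨𝟙 _, 𝟙 _, Category.comp_id _⟩⟩

theorem isZero_of_val {M : Fn k B} (h : ∀ (U : B) (x : Val M U), x = 0) : IsZero M := by
  rw [IsZero.iff_id_eq_zero]
  refine NatTrans.ext (funext fun W => ModuleCat.hom_ext (LinearMap.ext fun x => ?_))
  exact h W.unop x

/-- Extension by the factorization of a map. -/
theorem Good.fac {Φ : Fn k B → Prop} (h : Good Φ) {P M : Fn k B} (g : P ⟶ M) (hP : Φ P)
    (hK : Φ (kernel g)) (hC : Φ (cokernel g)) : Φ M := by
  have h1 : Φ (kernel (Abelian.factorThruImage g)) := by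
    refine h.of_iso ?_ hK
    refine (kernelIsoOfEq (Abelian.image.fac g)).symm ≪≫ ?_
    exact kernelCompMono (Abelian.factorThruImage g) (Abelian.image.ι g)
  have h2 : Φ (Abelian.image g) := h.right _ (ses_ker (Abelian.factorThruImage g)) h1 hP
  have h3 : Φ (cokernel (Abelian.image.ι g)) := by
    refine h.of_iso ?_ hC
    refine (cokernelIsoOfEq (Abelian.image.fac g)).symm ≪≫ ?_
    exact cokernelEpiComp (Abelian.factorThruImage g) (Abelian.image.ι g)
  exact h.mid _ (ses_coker (Abelian.image.ι g)) h2 h3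

/-- The values of kernels. -/
theorem ker_val {M N : Fn k B} (g : M ⟶ N) (U : B) :
    Function.Injective (vmap (kernel.ι g) U) ∧
      LinearMap.range (vmap (kernel.ι g) U) = LinearMap.ker (vmap g U) := by
  refine ⟨vmap_injective _ U, ?_⟩
  have h1 : (ShortComplex.mk (kernel.ι g) g (kernel.condition g)).Exact :=
    ShortComplex.exact_of_f_is_kernel _ (kernelIsKernel g)
  have h2 := (ShortComplex.moduleCat_exact_iff_range_eq_ker _).1
    (h1.map ((evaluation Bᵒᵖ (ModuleCat.{u} k)).obj (op U)))
  ext x
  exact (Submodule.ext_iff.1 h2 x)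

/-- The values of cokernels. -/
theorem coker_val {M N : Fn k B} (g : M ⟶ N) (U : B) :
    Function.Surjective (vmap (cokernel.π g) U) ∧
      LinearMap.range (vmap g U) = LinearMap.ker (vmap (cokernel.π g) U) := by
  refine ⟨vmap_surjective _ U, ?_⟩
  have h1 : (ShortComplex.mk g (cokernel.π g) (cokernel.condition g)).Exact :=
    ShortComplex.exact_of_g_is_cokernel _ (cokernelIsCokernel g)
  have h2 := (ShortComplex.moduleCat_exact_iff_range_eq_ker _).1
    (h1.map ((evaluation Bᵒᵖ (ModuleCat.{u} k)).obj (op U)))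
  ext x
  exact (Submodule.ext_iff.1 h2 x)

/-- Generators of a value of a functor. -/
theorem exists_cov (M : Fn k B) (U : B) [Module.Finite (Rg k U) (Val M U)] :
    ∃ (n : ℕ) (g : PS k (fun _ : Fin n => U) ⟶ M), Function.Surjective (vmap g U) := by
  obtain ⟨n, x, hx⟩ := Module.Finite.exists_fin (R := Rg k U) (M := Val M U)
  refine ⟨n, lift _ x, ?_⟩
  rw [← LinearMap.range_eq_top, ← top_le_iff, ← hx, Submodule.span_le]
  rintro _ ⟨i, rfl⟩
  refine ⟨pg (fun _ : Fin n => U) i (𝟙 U) 1, ?_⟩
  rw [lift_pg, one_smul, res_id]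

/-- Linear maps out of `Val (PS) U` are determined by the generators. -/
theorem val_ext {n : ℕ} {U : B} {Y : Type u} [AddCommGroup Y] [Module (Rg k U) Y]
    {f g : Val (PS k (fun _ : Fin n => U)) U →ₗ[Rg k U] Y}
    (h : ∀ i, f (pg (fun _ : Fin n => U) i (𝟙 U) 1) = g (pg (fun _ : Fin n => U) i (𝟙 U) 1)) :
    f = g := by
  have h1 : f.toAddMonoidHom = g.toAddMonoidHom := by
    refine pg_hom_ext _ fun i a r => ?_
    have h2 : pg (fun _ : Fin n => U) i a r = (MonoidAlgebra.single (MulOpposite.op (a : End U)) r :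
        Rg k U) • pg (fun _ : Fin n => U) i (𝟙 U) (1 : k) := by
      rw [single_smul, res_pg, smul_pg, mul_one, Category.comp_id]
    show f _ = g _
    rw [h2, map_smul, map_smul, h i]
  exact LinearMap.ext fun x => DFunLike.congr_fun h1 x

/-- The projective case: `Val M U` is projective; there is a retract `I` of a finite sum of
representable functors with a map to `M` which is bijective at `U`. -/
theorem exists_retract (M : Fn k B) (U : B) [Module.Finite (Rg k U) (Val M U)]
    [Module.Projective (Rg k U) (Val M U)] :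
    ∃ (n : ℕ) (I : Fn k B) (_ : Retract I (PS k (fun _ : Fin n => U))) (g : I ⟶ M),
      Function.Bijective (vmap g U) := by
  obtain ⟨n, g, hg⟩ := exists_cov M U
  obtain ⟨s, hs⟩ := Module.projective_lifting_property (vmap g U) LinearMap.id hg
  let e : Val (PS k (fun _ : Fin n => U)) U →ₗ[Rg k U] Val (PS k (fun _ : Fin n => U)) U :=
    s ∘ₗ vmap g U
  let ε : PS k (fun _ : Fin n => U) ⟶ PS k (fun _ : Fin n => U) :=
    lift (fun _ : Fin n => U) fun i => e (pg (fun _ : Fin n => U) i (𝟙 U) 1)
  have hε : vmap ε U = e := by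
    refine val_ext fun i => ?_
    rw [lift_pg, one_smul, res_id]
  have hse : ∀ x, vmap g U (s x) = x := fun x => LinearMap.congr_fun hs x
  have h1 : ε ≫ ε = ε := by
    refine hom_ext _ fun i => ?_
    rw [vmap_comp]
    show vmap ε U (vmap ε U _) = vmap ε U _
    rw [hε]
    show s (vmap g U (s (vmap g U _))) = s (vmap g U _)
    rw [hse]
  have h2 : ε ≫ g = g := by
    refine hom_ext _ fun i => ?_
    rw [vmap_comp]
    show vmap g U (vmap ε U _) = vmap g U _
    rw [hε]
    exact hse _
  obtain ⟨I, i, r, hir, hri⟩ := IsIdempotentComplete.idempotents_split _ ε h1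
  refine ⟨n, I, ⟨i, r, hir⟩, i ≫ g, ?_, ?_⟩
  · rw [injective_iff_map_eq_zero]
    intro y hy
    rw [vmap_comp] at hy
    have h3 : i ≫ ε = i := by rw [← hri, ← Category.assoc, hir, Category.id_comp]
    have h4 : vmap i U y = 0 := by
      have h5 : vmap i U y = vmap ε U (vmap i U y) := by
        rw [← vmap_comp, h3]
      rw [h5, hε]
      show s (vmap g U (vmap i U y)) = 0
      rw [hy, map_zero]
    have h6 : vmap (i ≫ r) U y = y := by rw [hir]; rfl
    rw [vmap_comp, h4, map_zero] at h6
    exact h6.symm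
  · intro x
    obtain ⟨y, rfl⟩ := hg x
    refine ⟨vmap r U y, ?_⟩
    rw [← vmap_comp, ← Category.assoc, hri, h2]

/-- The induction principle. -/
theorem Good.all (hB : EI B) (hR : ∀ U : B, RC (Rg k U)) {Φ : Fn k B → Prop} (h : Good Φ)
    (M : Fn k B) (hM : FPV M) : Φ M := by
  classical
  obtain ⟨sz, hsz⟩ := hB.size
  -- the statement for functors with support in `D`
  have key : ∀ (m : ℕ) (D : Finset (Cl B)), D.card = m →
      (∀ U V : B, Nonempty (U ⟶ V) → cl V ∈ D → cl U ∈ D) →
      ∀ M : Fn k B, FPV M → (∀ U : B, Nontrivial (Val M U) → cl U ∈ D) → Φ M := by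
    intro m
    induction m with
    | zero =>
      intro D hD _ M _ hsupp
      refine h.zero M (isZero_of_val fun U x => ?_)
      by_contra hx
      have := hsupp U ⟨⟨x, 0, hx⟩⟩
      rw [Finset.card_eq_zero.1 hD] at this
      exact absurd this (Finset.notMem_empty _)
    | succ m ih =>
      intro D hD hdown
      -- an object of maximal size
      have hne : D.Nonempty := Finset.card_pos.1 (by omega)
      obtain ⟨c, hc, hmax⟩ := D.exists_max_image (fun c : Cl B => sz c.out) hne
      set U : B := c.out with hU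
      have hcU : cl U = c := Quotient.out_eq c
      have hszi : ∀ V W : B, cl V = cl W → sz V = sz W := by
        intro V W hVW
        obtain ⟨e⟩ := cl_eq.1 hVW
        exact le_antisymm (hsz V W e.hom).1 (hsz W V e.inv).1
      have hmax' : ∀ V : B, cl V ∈ D → sz V ≤ sz U := by
        intro V hV
        have h1 := hmax (cl V) hV
        have h2 : sz (cl V).out = sz V := hszi _ _ (Quotient.out_eq _)
        simp only [h2] at h1
        exact h1
      have hdown' : ∀ V W : B, Nonempty (V ⟶ W) → cl W ∈ D.erase c → cl V ∈ D.erase c := by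
        intro V W hVW hW
        rw [Finset.mem_erase] at hW ⊢
        refine ⟨fun hVc => hW.1 ?_, hdown V W hVW hW.2⟩
        obtain ⟨f⟩ := hVW
        have h1 : sz V = sz U := hszi _ _ (hVc.trans hcU.symm)
        have h2 := (hsz V W f)
        have h3 := hmax' W hW.2
        have : IsIso f := h2.2 (by omega)
        rw [← hVc]
        exact cl_eq.2 ⟨(asIso f).symm⟩
      have hcard : (D.erase c).card = m := by
        rw [Finset.card_erase_of_mem hc, hD]; rfl
      have ih' := ih (D.erase c) hcard hdown'
      -- functors which vanish at `U`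
      have small : ∀ N : Fn k B, FPV N → (∀ V : B, Nontrivial (Val N V) → cl V ∈ D) →
          (∀ x : Val N U, x = 0) → Φ N := by
        intro N hN hs h0
        refine ih' N hN fun V hV => Finset.mem_erase.2 ⟨fun hVc => ?_, hs V hV⟩
        obtain ⟨e⟩ := cl_eq.1 (hVc.trans hcU.symm)
        exact not_nontrivial_iff.2 h0 (nontrivial_iso N e hV)
      have hcU' : cl U ∈ D := by rw [hcU]; exact hc
      -- supports
      have suppP : ∀ (n : ℕ) (V : B), Nontrivial (Val (PS k (fun _ : Fin n => U)) V) →
          cl V ∈ D := by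
        intro n V hV
        obtain ⟨i, hi⟩ := exists_hom_of_nontrivial _ hV
        exact hdown V U hi hcU'
      have suppKer : ∀ {N N' : Fn k B} (g : N ⟶ N'), (∀ V : B, Nontrivial (Val N V) →
          cl V ∈ D) → ∀ V : B, Nontrivial (Val (kernel g) V) → cl V ∈ D :=
        fun g hN V hV => hN V (nontrivial_of_injective _ (vmap_injective (kernel.ι g) V) hV)
      have suppCoker : ∀ {N N' : Fn k B} (g : N ⟶ N'), (∀ V : B, Nontrivial (Val N' V) →
          cl V ∈ D) → ∀ V : B, Nontrivial (Val (cokernel g) V) → cl V ∈ D :=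
        fun g hN V hV => hN V (nontrivial_of_surjective _ (vmap_surjective (cokernel.π g) V) hV)
      have cok0 : ∀ {N N' : Fn k B} (g : N ⟶ N'), Function.Surjective (vmap g U) →
          ∀ x : Val (cokernel g) U, x = 0 := by
        intro N N' g hg x
        obtain ⟨h1, h2⟩ := coker_val g U
        obtain ⟨y, rfl⟩ := h1 x
        have h3 : y ∈ LinearMap.ker (vmap (cokernel.π g) U) := by
          rw [← h2]; exact hg y
        exact h3
      -- induction on the projective dimension
      have inner : ∀ (d : ℕ) (N : Fn k B), FPV N →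
          (∀ V : B, Nontrivial (Val N V) → cl V ∈ D) → HasFPRes (Rg k U) d (Val N U) → Φ N := by
        intro d
        induction d with
        | zero =>
          intro N hN hs hd
          obtain ⟨h1, h2⟩ := hd
          obtain ⟨n, I, r, g, hg⟩ := exists_retract N U
          have hP := FPV.ps (k := k) (fun _ : Fin n => U) hB
          have hI : FPV I := FPV.retract hR r hP
          have hri : Mono r.i := (IsSplitMono.mk' ⟨r.r, r.retract⟩ : IsSplitMono r.i).mono
          have hsI : ∀ V : B, Nontrivial (Val I V) → cl V ∈ D := fun V hV =>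
            suppP n V (nontrivial_of_injective _ (vmap_injective r.i V) hV)
          · refine h.fac g (h.rep n U _ ⟨r⟩) ?_ ?_
            · refine small _ (FPV.ker hR g hI hN) (suppKer g hsI) fun x => ?_
              obtain ⟨h3, h4⟩ := ker_val g U
              have h5 : vmap (kernel.ι g) U x ∈ LinearMap.ker (vmap g U) := by
                rw [← h4]; exact ⟨x, rfl⟩
              have h6 : vmap (kernel.ι g) U x = 0 := hg.1 (by rw [map_zero]; exact h5)
              exact h3 (by rw [h6, map_zero])
            · exact small _ (FPV.coker hR g hI hN) (suppCoker g hs) (cok0 g hg.2)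
        | succ d ihd =>
          intro N hN hs hd
          have := (hN.fp U)
          obtain ⟨n, g, hg⟩ := exists_cov N U
          have hP := FPV.ps (k := k) (fun _ : Fin n => U) hB
          refine h.fac g (h.rep' n U) ?_ ?_
          · refine ihd _ (FPV.ker hR g hP hN) (suppKer g (suppP n)) ?_
            obtain ⟨h3, h4⟩ := ker_val g U
            have h5 := HasFPRes.syz (finite_val (k := k) (fun _ : Fin n => U) hB U)
              (by have := free_val (k := k) (fun _ : Fin n => U) hB U; infer_instance)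
              (vmap g U) hg hd
            refine h5.congr ?_
            exact ((LinearEquiv.ofInjective _ h3).trans (LinearEquiv.ofEq _ _ h4)).symm
          · exact small _ (FPV.coker hR g hP hN) (suppCoker g hs) (cok0 g hg)
      intro N hN hs
      have := hN.fp U
      obtain ⟨d, hd⟩ := exists_res (hR U) (Val N U)
      exact inner d N hN hs hd
  -- a finite set closed downwards
  obtain ⟨D, hD⟩ := hM.supp
  choose E hE using hB.below
  let T : Set (Cl B) := {c | ∃ U V : B, cl U = c ∧ cl V ∈ D ∧ Nonempty (U ⟶ V)}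
  have hT : T.Finite := by
    refine (D.biUnion fun c => E c.out).finite_toSet.subset ?_
    rintro _ ⟨U, V, rfl, hV, ⟨f⟩⟩
    refine Finset.mem_coe.2 (Finset.mem_biUnion.2 ⟨cl V, hV, hE _ U ?_⟩)
    obtain ⟨e⟩ := cl_eq.1 (Quotient.out_eq (cl V) : cl (cl V).out = cl V)
    exact ⟨f ≫ e.inv⟩
  refine key hT.toFinset.card hT.toFinset rfl ?_ M hM
    fun U hU => hT.mem_toFinset.2 ⟨U, U, rfl, hD U hU, ⟨𝟙 U⟩⟩
  rintro U V ⟨f⟩ hV
  obtain ⟨U', V', h1, h2, ⟨g⟩⟩ := hT.mem_toFinset.1 hV
  obtain ⟨e⟩ := cl_eq.1 h1
  exact hT.mem_toFinset.2 ⟨U, V', rfl, h2, ⟨f ≫ e.inv ≫ g⟩⟩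

end

end Pool.Agent.NegK.NT.H78
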