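import Pool.Agent.Lib.MP_28303a_al.NT.H78.Coh

/-! # Functors `Bᵒᵖ ⥤ ModuleCat k` with finitely presented values -/

set_option autoImplicit false

namespace Pool.Agent.NegK.NT.H78

open CategoryTheory Limits Opposite

universe u

/-- Functors. -/
abbrev Fn (k : Type u) [Ring k] (B : Type u) [Category.{u} B] := Bᵒᵖ ⥤ ModuleCat.{u} k

section

variable {k : Type u} [Ring k] {B : Type u} [Category.{u} B]

/-- The value of a functor. -/
def Val (M : Fn k B) (U : B) : Type u := M.obj (op U)

instance (M : Fn k B) (U : B) : AddCommGroup (Val M U) :=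
  inferInstanceAs (AddCommGroup (M.obj (op U)))

instance (M : Fn k B) (U : B) : Module k (Val M U) :=
  inferInstanceAs (Module k (M.obj (op U)))

/-- The map of values. -/
def res (M : Fn k B) {U V : B} (f : U ⟶ V) : Val M V →ₗ[k] Val M U := (M.map f.op).hom

theorem res_id (M : Fn k B) (U : B) (x : Val M U) : res M (𝟙 U) x = x := by
  show (M.map (𝟙 U).op).hom x = x
  rw [op_id, M.map_id]; rfl

theorem res_comp (M : Fn k B) {U V W : B} (f : U ⟶ V) (g : V ⟶ W) (x : Val M W) :
    res M (f ≫ g) x = res M f (res M g x) := by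
  show (M.map (f ≫ g).op).hom x = (M.map f.op).hom ((M.map g.op).hom x)
  rw [op_comp, M.map_comp]; rfl

/-- The ring acting on the values. -/
abbrev Rg (k : Type u) [Ring k] {B : Type u} [Category.{u} B] (U : B) : Type u :=
  MonoidAlgebra k (End U)ᵐᵒᵖ

/-- The action of the endomorphisms. -/
def actE (M : Fn k B) (U : B) : (End U)ᵐᵒᵖ →* AddMonoid.End (Val M U) where
  toFun a := (res M a.unop).toAddMonoidHom
  map_one' := AddMonoidHom.ext fun x => res_id M U x
  map_mul' a b := AddMonoidHom.ext fun x => res_comp M a.unop b.unop x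

theorem actE_comm (M : Fn k B) (U : B) (r : k) (a : (End U)ᵐᵒᵖ) :
    Commute (Module.toAddMonoidEnd k (Val M U) r) (actE M U a) :=
  AddMonoidHom.ext fun x => ((res M a.unop).map_smul r x).symm

/-- The ring homomorphism defining the action of `k[End U]` on the values. -/
noncomputable def actR (M : Fn k B) (U : B) : Rg k U →+* AddMonoid.End (Val M U) :=
  MonoidAlgebra.liftNCRingHom (Module.toAddMonoidEnd k (Val M U)) (actE M U) (actE_comm M U)

noncomputable instance (M : Fn k B) (U : B) : Module (Rg k U) (Val M U) :=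
  Module.compHom _ (actR M U)

theorem single_smul (M : Fn k B) (U : B) (a : End U) (r : k) (x : Val M U) :
    (MonoidAlgebra.single (MulOpposite.op a) r : Rg k U) • x = r • res M a x := by
  show actR M U (MonoidAlgebra.single (MulOpposite.op a) r) x = r • res M a x
  have h : actR M U (MonoidAlgebra.single (MulOpposite.op a) r) =
      (Module.toAddMonoidEnd k (Val M U) r) * (actE M U (MulOpposite.op a)) :=
    MonoidAlgebra.liftNC_single _ _ _ _
  rw [h]; rfl

/-- Additive maps which commute with `k` and the endomorphisms are linear. -/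
noncomputable def mkLin {M N : Fn k B} {U : B} (φ : Val M U →ₗ[k] Val N U)
    (h : ∀ (b : End U) (y : Val M U), φ (res M b y) = res N b (φ y)) :
    Val M U →ₗ[Rg k U] Val N U where
  toFun := φ
  map_add' := map_add _
  map_smul' a x := by
    rw [RingHom.id_apply]
    induction a using MonoidAlgebra.induction_linear with
    | zero => rw [zero_smul, zero_smul, map_zero]
    | add a b ha hb => rw [add_smul, add_smul, ← ha, ← hb, map_add]
    | single a r =>
      induction a using MulOpposite.rec' with
      | h a => rw [single_smul, single_smul, ← h, map_smul]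

/-- A natural transformation on values, `k`-linear. -/
def vk {M N : Fn k B} (f : M ⟶ N) (U : B) : Val M U →ₗ[k] Val N U := (f.app (op U)).hom

theorem vk_res {M N : Fn k B} (f : M ⟶ N) {U V : B} (g : U ⟶ V) (x : Val M V) :
    vk f U (res M g x) = res N g (vk f V x) :=
  congrArg (fun h => h.hom x) (f.naturality (Quiver.Hom.op g))

/-- A natural transformation on values. -/
noncomputable def vmap {M N : Fn k B} (f : M ⟶ N) (U : B) : Val M U →ₗ[Rg k U] Val N U :=
  mkLin (vk f U) fun b y => vk_res f b y

theorem vmap_apply {M N : Fn k B} (f : M ⟶ N) (U : B) (x : Val M U) :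
    vmap f U x = vk f U x := rfl

theorem vmap_id (M : Fn k B) (U : B) (x : Val M U) : vmap (𝟙 M) U x = x := rfl

theorem vmap_comp {L M N : Fn k B} (f : L ⟶ M) (g : M ⟶ N) (U : B) (x : Val L U) :
    vmap (f ≫ g) U x = vmap g U (vmap f U x) := rfl

theorem vmap_res {M N : Fn k B} (f : M ⟶ N) {U V : B} (g : U ⟶ V) (x : Val M V) :
    vmap f U (res M g x) = res N g (vmap f V x) := vk_res f g x

theorem vmap_surjective {M N : Fn k B} (f : M ⟶ N) [Epi f] (U : B) :
    Function.Surjective (vmap f U) :=
  (ModuleCat.epi_iff_surjective (f.app (op U))).1 inferInstance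

theorem vmap_injective {M N : Fn k B} (f : M ⟶ N) [Mono f] (U : B) :
    Function.Injective (vmap f U) :=
  (ModuleCat.mono_iff_injective (f.app (op U))).1 inferInstance

/-- Short exact sequences of functors are exact on values. -/
theorem ses_val {S : ShortComplex (Fn k B)} (h : S.ShortExact) (U : B) :
    SES (vmap S.f U) (vmap S.g U) := by
  have h1 := h.map_of_exact ((evaluation Bᵒᵖ (ModuleCat.{u} k)).obj (op U))
  have h2 := (ShortComplex.moduleCat_exact_iff_range_eq_ker _).1 h1.exact
  have h3 : Function.Injective (vmap S.f U) := (ModuleCat.mono_iff_injective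
    ((S.map ((evaluation Bᵒᵖ (ModuleCat.{u} k)).obj (op U))).f)).1 h1.mono_f
  have h4 : Function.Surjective (vmap S.g U) := (ModuleCat.epi_iff_surjective
    ((S.map ((evaluation Bᵒᵖ (ModuleCat.{u} k)).obj (op U))).g)).1 h1.epi_g
  refine ⟨h3, ?_, h4⟩
  ext x
  exact (Submodule.ext_iff.1 h2 x)

end

end Pool.Agent.NegK.NT.H78
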